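import Pool.Agent.H96.SYZ.Two

/-!
# Manifolds all of whose nef isotropic classes lie in one orbit
-/

set_option autoImplicit false
set_option maxHeartbeats 4000000
set_option synthInstance.maxHeartbeats 400000

universe u

namespace Pool.Agent.H96.SYZ

open Pool.Agent.Q50.HK Pool.Agent.Q50.HK.Moduli Pool.Agent.Q34.HF
  Pool.Agent.Q34.HF.Fibrations Filter Topology

variable {n : ℕ}

/-- The period of `M` lies in `W`: `M` has a holomorphic symplectic form with class in `W`, for one of the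
two complex structures `M` and `\bar M` with the same plane. -/
def PeriodIn (T : Moduli.{u} n) (W : Set (Fin n → ℂ)) (M : T.Mk) : Prop :=
  ∃ z ∈ W, Symp T z ∧ T.period M = plane z

/-- There are no MBM classes of type `(1,1)` on `M`: the Kähler cone is a component of the positive
cone. -/
def NoWalls (T : Moduli.{u} n) (M : T.Mk) : Prop := ∀ δ ∈ T.mbm, ¬ T.Orth (T.period M) δ

section

variable {T : Moduli.{u} n}

/-- Isotropic classes orthogonal to a positive plane. -/
theorem exists_vw (hT : T.Facts) (hn : 4 ≤ n) {z : Fin n → ℂ} (hz : Symp T z) :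
    ∃ v w, T.B (reP z) v = 0 ∧ T.B (imP z) v = 0 ∧ T.B (reP z) w = 0 ∧ T.B (imP z) w = 0 ∧
      T.B v v = 0 ∧ T.B w w = 0 ∧ 0 < T.B v w := by
  obtain ⟨h1, h2, h3⟩ := hz
  obtain ⟨hP2, hPp⟩ := span_pair hT (a := reP z) (b := imP z) h3 (by
    rw [h2, ← h1]
    have := mul_pos h3 h3
    simpa using this)
  obtain ⟨k, hk, hkk⟩ := exists_pos_orth hT hP2
  obtain ⟨e, he0, he, hke⟩ := exists_orth_orth hT hn hP2 k
  have hee := neg_of_orth hT hP2 hPp hk hkk he hke he0
  rw [orth_span_pair] at hk he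
  set τ : ℝ := Real.sqrt (T.B k k / -T.B e e) with hτ
  have hτ2 : τ ^ 2 * T.B e e = -T.B k k := by
    rw [hτ, Real.sq_sqrt (div_nonneg hkk.le (by linarith))]
    have : T.B e e ≠ 0 := hee.ne
    field_simp
  refine ⟨k + τ • e, k - τ • e, ?_, ?_, ?_, ?_, ?_, ?_, ?_⟩
  · rw [map_add, map_smul, hk.1, he.1, smul_zero, add_zero]
  · rw [map_add, map_smul, hk.2, he.2, smul_zero, add_zero]
  · rw [map_sub, map_smul, hk.1, he.1, smul_zero, sub_zero]
  · rw [map_sub, map_smul, hk.2, he.2, smul_zero, sub_zero]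
  · simp only [map_add, LinearMap.add_apply, map_smul, LinearMap.smul_apply, smul_eq_mul,
      hT.symm e k, hke]
    linarith
  · simp only [map_sub, LinearMap.sub_apply, map_smul, LinearMap.smul_apply, smul_eq_mul,
      hT.symm e k, hke]
    linarith
  · simp only [map_add, map_sub, LinearMap.add_apply, map_smul, LinearMap.smul_apply,
      smul_eq_mul, hT.symm e k, hke]
    linarith

/-- A nef isotropic class which is a multiple of `f` is a positive rational multiple. -/
theorem prop_nat {x f : V n} (hx : IsInt x) (hf : IsInt f) (hf0 : f ≠ 0) {α : ℝ} (hα : 0 < α)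
    (h : x = α • f) : ∃ p q : ℕ, 0 < p ∧ 0 < q ∧ (q : ℝ) • x = (p : ℝ) • f := by
  obtain ⟨i, hi⟩ : ∃ i, f i ≠ 0 := by
    by_contra hcon
    push Not at hcon
    exact hf0 (funext hcon)
  obtain ⟨a, ha⟩ := hx i
  obtain ⟨b, hb⟩ := hf i
  have hab : (a : ℝ) = α * b := by
    rw [← ha, ← hb, h]
    rfl
  have hb0 : b ≠ 0 := by
    rintro rfl
    rw [hb] at hi
    simp at hi
  have ha0 : a ≠ 0 := by
    rintro rfl
    rw [Int.cast_zero] at hab
    rcases mul_eq_zero.1 hab.symm with h | h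
    · exact hα.ne' h
    · exact hb0 (by exact_mod_cast h)
  have habs : (a.natAbs : ℝ) = α * b.natAbs := by
    rw [Nat.cast_natAbs, Nat.cast_natAbs, Int.cast_abs, Int.cast_abs, hab, abs_mul,
      abs_of_pos hα]
  refine ⟨a.natAbs, b.natAbs, Int.natAbs_pos.2 ha0, Int.natAbs_pos.2 hb0, ?_⟩
  rw [h, smul_smul, habs, mul_comm]

/-- The correction. -/
noncomputable def adj (T : Moduli.{u} n) (a x y : V n) : V n :=
  a - (T.B y a / T.B x y) • x - (T.B x a / T.B x y) • y

theorem adj_left {a x y : V n} (hx : T.B x x = 0) (hxy : T.B x y ≠ 0) :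
    T.B x (adj T a x y) = 0 := by
  simp only [adj, map_sub, map_smul, smul_eq_mul, hx]
  field_simp
  ring

theorem adj_right (hT : T.Facts) {a x y : V n} (hy : T.B y y = 0) (hxy : T.B x y ≠ 0) :
    T.B y (adj T a x y) = 0 := by
  simp only [adj, map_sub, map_smul, smul_eq_mul, hy, hT.symm y x]
  field_simp
  ring

theorem adj_smul {a x y : V n} {c c' : ℝ} (hc : c ≠ 0) (hc' : c' ≠ 0) :
    adj T a (c • x) (c' • y) = adj T a x y := by
  simp only [adj, map_smul, LinearMap.smul_apply, smul_eq_mul, smul_smul]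
  congr 2
  · congr 1
    field_simp
  · field_simp

theorem adj_cont {a v w : V n} (hvw : T.B v w ≠ 0) :
    ContinuousAt (fun p : V n × V n => adj T a p.1 p.2) (v, w) := by
  unfold adj
  have h1 : ContinuousAt (fun p : V n × V n => p.1) (v, w) := continuousAt_fst
  have h2 : ContinuousAt (fun p : V n × V n => p.2) (v, w) := continuousAt_snd
  have h3 : ContinuousAt (fun _ : V n × V n => a) (v, w) := continuousAt_const
  exact (h3.sub (((cont_B h2 h3).div (cont_B h1 h2) hvw).smul h1)).sub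
    (((cont_B h1 h3).div (cont_B h1 h2) hvw).smul h2)

theorem adj_eq {a v w : V n} (h1 : T.B v a = 0) (h2 : T.B w a = 0) : adj T a v w = a := by
  rw [adj, h1, h2]
  simp

end

variable {T : Fibrations.{u} n}

/-- The conclusion of the two existence theorems. -/
def Decides (T : Fibrations.{u} n) (M : T.Mk) (l : V n) : Prop :=
  (∃ φ ∈ T.mon, T.NefIsotropic M (φ l)) ∧ ∀ x, T.NefIsotropic M x →
    ∃ ψ ∈ T.mon, ∃ p q : ℕ, 0 < p ∧ 0 < q ∧ (q : ℝ) • x = (p : ℝ) • ψ l

/-- The periods near `(v, w)`. -/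
theorem near (hT : T.Facts) {z : Fin n → ℂ} (hz : Symp T.toModuli z) {v w : V n}
    (h1 : T.B (reP z) v = 0) (h2 : T.B (imP z) v = 0) (h3 : T.B (reP z) w = 0)
    (h4 : T.B (imP z) w = 0) (hvw : 0 < T.B v w) {W : Set (Fin n → ℂ)} (hW : IsOpen W)
    (hzW : z ∈ W) : ∃ O : Set (V n × V n), IsOpen O ∧ (v, w) ∈ O ∧ ∀ p ∈ O,
      gs T.toModuli (adj T.toModuli (reP z) p.1 p.2) (adj T.toModuli (imP z) p.1 p.2) ∈ W ∧
      0 < T.B (adj T.toModuli (reP z) p.1 p.2) (adj T.toModuli (reP z) p.1 p.2) ∧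
      T.B (adj T.toModuli (reP z) p.1 p.2) (adj T.toModuli (imP z) p.1 p.2) ^ 2 <
        T.B (adj T.toModuli (reP z) p.1 p.2) (adj T.toModuli (reP z) p.1 p.2) *
        T.B (adj T.toModuli (imP z) p.1 p.2) (adj T.toModuli (imP z) p.1 p.2) := by
  have hF : T.toModuli.Facts := hT.toFacts
  have ea : adj T.toModuli (reP z) v w = reP z :=
    adj_eq (by rw [hF.symm]; exact h1) (by rw [hF.symm]; exact h3)
  have eb : adj T.toModuli (imP z) v w = imP z :=
    adj_eq (by rw [hF.symm]; exact h2) (by rw [hF.symm]; exact h4)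
  have ca := adj_cont (T := T.toModuli) (a := reP z) hvw.ne'
  have cb := adj_cont (T := T.toModuli) (a := imP z) hvw.ne'
  have g1 : 0 < T.B (reP z) (reP z) := hz.2.2
  have g2 : T.B (reP z) (imP z) ^ 2 < T.B (reP z) (reP z) * T.B (imP z) (imP z) := by
    rw [hz.2.1, ← hz.1]
    have := mul_pos g1 g1
    simpa using this
  have hev : ∀ᶠ p in 𝓝 (v, w),
      gs T.toModuli (adj T.toModuli (reP z) p.1 p.2) (adj T.toModuli (imP z) p.1 p.2) ∈ W ∧
      0 < T.B (adj T.toModuli (reP z) p.1 p.2) (adj T.toModuli (reP z) p.1 p.2) ∧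
      T.B (adj T.toModuli (reP z) p.1 p.2) (adj T.toModuli (imP z) p.1 p.2) ^ 2 <
        T.B (adj T.toModuli (reP z) p.1 p.2) (adj T.toModuli (reP z) p.1 p.2) *
        T.B (adj T.toModuli (imP z) p.1 p.2) (adj T.toModuli (imP z) p.1 p.2) := by
    refine Filter.Eventually.and ?_ (Filter.Eventually.and ?_ ?_)
    · refine (cont_gs hF ca cb ?_ ?_) (hW.mem_nhds ?_)
      · simp only [ea]
        exact g1
      · simp only [ea, eb]
        exact g2
      · simp only [ea, eb, gs_self hz]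
        exact hzW
    · refine (cont_B ca ca).eventually_const_lt ?_
      simp only [ea]
      exact g1
    · refine ((cont_B ca cb).pow 2).eventually_lt ((cont_B ca ca).mul (cont_B cb cb)) ?_
      simp only [Pi.pow_apply, ea, eb]
      exact g2
  obtain ⟨O, hOs, hO, hvO⟩ := _root_.mem_nhds_iff.1 hev
  exact ⟨O, hO, hvO, fun p hp => hOs hp⟩

/-- **Projective manifolds with Picard number two.** -/
theorem exists_projective (hT : T.Facts) (hn : 5 ≤ n) {W : Set (Fin n → ℂ)} (hW : IsOpen W)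
    (hW0 : ∃ z ∈ W, Symp T.toModuli z) {l : V n} (hl : IsInt l) (h0 : l ≠ 0)
    (hq : T.B l l = 0) : ∃ M, PeriodIn T.toModuli W M ∧ T.Projective M ∧ T.picard M = 2 ∧
      NoWalls T.toModuli M ∧ Decides T M l := by
  have hF : T.toModuli.Facts := hT.toFacts
  obtain ⟨z, hzW, hz⟩ := hW0
  obtain ⟨v, w, h1, h2, h3, h4, hvv, hww, hvw⟩ := exists_vw hF (by omega) hz
  obtain ⟨O, hO, hvO, hOp⟩ := near hT hz h1 h2 h3 h4 hvw hW hzW
  obtain ⟨C, hC⟩ := hT.bounded
  obtain ⟨φ, hφ, ψ, hψ, c, c', hc, hc', hmem, hD, hsmall⟩ :=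
    exists_pair hT hn hl h0 hq C hvv hww hvw hO hvO
  obtain ⟨hfi, hf0, hff⟩ := mon_int hT hl h0 hq hφ
  obtain ⟨hgi, hg0, hgg⟩ := mon_int hT hl h0 hq hψ
  set f : V n := φ l with hf
  set g : V n := ψ l with hg
  obtain ⟨k1, k2, k3⟩ := hOp _ hmem
  simp only [adj_smul hc hc'] at k1 k2 k3
  have orthN : ∀ a, T.Orth (Submodule.span ℝ {f, g}) (adj T.toModuli a f g) := by
    intro a
    rw [orth_span_pair]
    exact ⟨adj_left hff hD.ne', adj_right hF hgg hD.ne'⟩
  obtain ⟨M, hMW, hMN, hnef⟩ := exists_manifold hF (N := Submodule.span ℝ {f, g})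
    (Submodule.subset_span (by simp)) hfi hf0 hff (orthN _) (orthN _) k2 k3 hW k1
  have hgN : T.Orth (T.period M) g := (hMN g hgi).2 (Submodule.subset_span (by simp))
  have hfN : T.Orth (T.period M) f := (hMN f hfi).2 (Submodule.subset_span (by simp))
  have hpN : T.Orth (T.period M) (f + g) := by
    intro p hp
    rw [map_add, hfN p hp, hgN p hp, add_zero]
  have hsum : T.B (f + g) (f + g) = 2 * T.B f g := by
    simp only [map_add, LinearMap.add_apply, hff, hgg, hF.symm g f]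
    ring
  have hsum0 : 0 < T.B (f + g) (f + g) := by
    rw [hsum]
    positivity
  refine ⟨M, hMW, ⟨f + g, ⟨hfi.add hgi, hpN⟩, hsum0⟩, ?_, ?_, ⟨φ, hφ, hnef⟩, ?_⟩
  · have hspan : Submodule.span ℝ {x : V n | T.NS M x} = Submodule.span ℝ {f, g} := by
      apply le_antisymm
      · rw [Submodule.span_le]
        intro x hx
        exact (hMN x hx.1).1 hx.2
      · rw [Submodule.span_le]
        rintro x (rfl | hx)
        · exact Submodule.subset_span ⟨hfi, hfN⟩
        · rw [Set.mem_singleton_iff.1 hx]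
          exact Submodule.subset_span ⟨hgi, hgN⟩
    rw [Moduli.picard, hspan]
    have hli : LinearIndependent ℝ ![f, g] := by
      rw [LinearIndependent.pair_iff]
      intro x y hxy
      have e1 : y * T.B f g = 0 := by
        have := congrArg (T.B f) hxy
        rw [map_add, map_smul, map_smul, hff, map_zero, smul_zero, zero_add, smul_eq_mul] at this
        exact this
      have e2 : x * T.B f g = 0 := by
        have := congrArg (T.B g) hxy
        rw [map_add, map_smul, map_smul, hgg, map_zero, smul_zero, add_zero, smul_eq_mul,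
          hF.symm g f] at this
        exact this
      exact ⟨(mul_eq_zero.1 e2).resolve_right hD.ne', (mul_eq_zero.1 e1).resolve_right hD.ne'⟩
    have h3 := finrank_span_eq_card hli
    have h4 : Set.range ![f, g] = {f, g} := by
      ext z
      simp only [Set.mem_range, Fin.exists_fin_two, Matrix.cons_val_zero, Matrix.cons_val_one,
        Set.mem_insert_iff, Set.mem_singleton_iff]
      exact or_congr eq_comm eq_comm
    rw [h4] at h3
    rw [h3]
    rfl
  · intro δ hδ hδP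
    obtain ⟨hδi, hδn⟩ := hT.mbm δ hδ
    have := hsmall δ hδi ((hMN δ hδi).1 hδP) hδn
    have := hC δ hδ
    linarith
  · intro x hx
    obtain ⟨y, hy⟩ := hT.nonempty M
    have hyx := nef_pos hF hx hy
    have hyf := nef_pos hF hnef hy
    have hyr := (hT.kahler M y hy).1
    have hP := hT.period M
    have hfg0 : 0 < T.B (f + g) f := by
      rw [map_add, LinearMap.add_apply, hff, hF.symm g f]
      linarith
    have hys := pos_of_pos' hF hP.1 hP.2 hpN hsum0 hyr.1 hyr.2.1 hfN hff hfg0 hyf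
    have hyg := pos_of_pos hF hP.1 hP.2 hpN hsum0 hyr.1 hyr.2.1 hgN hgg (by
      rw [map_add, LinearMap.add_apply, hgg]
      linarith) hys
    obtain ⟨α, β, hαβ⟩ := Submodule.mem_span_pair.1 ((hMN x hx.1.1).1 hx.1.2)
    have hxx : T.B x x = 2 * (α * β) * T.B f g := by
      rw [← hαβ]
      simp only [map_add, LinearMap.add_apply, map_smul, LinearMap.smul_apply, smul_eq_mul, hff,
        hgg, hF.symm g f]
      ring
    rw [hx.2.2.1] at hxx
    have h5 : α * β = 0 := by
      rcases mul_eq_zero.1 hxx.symm with h | h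
      · linarith
      · exact absurd h hD.ne'
    rcases mul_eq_zero.1 h5 with h | h
    · rw [h, zero_smul, zero_add] at hαβ
      have hβ : 0 < β := by
        rw [← hαβ, map_smul, smul_eq_mul] at hyx
        exact (pos_iff_pos_of_mul_pos hyx).2 hyg
      obtain ⟨p, q, hp, hq, hpq⟩ := prop_nat hx.1.1 hgi hg0 hβ hαβ.symm
      exact ⟨ψ, hψ, p, q, hp, hq, hpq⟩
    · rw [h, zero_smul, add_zero] at hαβ
      have hα : 0 < α := by
        rw [← hαβ, map_smul, smul_eq_mul] at hyx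
        exact (pos_iff_pos_of_mul_pos hyx).2 hyf
      obtain ⟨p, q, hp, hq, hpq⟩ := prop_nat hx.1.1 hfi hf0 hα hαβ.symm
      exact ⟨φ, hφ, p, q, hp, hq, hpq⟩

/-- **Non-projective manifolds with Picard number one.** -/
theorem exists_nonprojective (hT : T.Facts) (hn : 4 ≤ n) {W : Set (Fin n → ℂ)} (hW : IsOpen W)
    (hW0 : ∃ z ∈ W, Symp T.toModuli z) {l : V n} (hl : IsInt l) (h0 : l ≠ 0)
    (hq : T.B l l = 0) : ∃ M, PeriodIn T.toModuli W M ∧ ¬ T.Projective M ∧ T.picard M = 1 ∧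
      NoWalls T.toModuli M ∧ Decides T M l := by
  have hF : T.toModuli.Facts := hT.toFacts
  obtain ⟨z, hzW, hz⟩ := hW0
  obtain ⟨v, w, h1, h2, h3, h4, hvv, hww, hvw⟩ := exists_vw hF hn hz
  have hv0 : v ≠ 0 := by
    rintro rfl
    simp at hvw
  obtain ⟨O, hO, hvO, hOp⟩ := near hT hz h1 h2 h3 h4 hvw hW hzW
  have hO' : IsOpen {x : V n | (x, w) ∈ O ∧ 0 < T.B x w} :=
    (hO.preimage (continuous_id.prodMk continuous_const)).inter
      (isOpen_lt continuous_const (continuous_left T.toModuli w))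
  obtain ⟨φ, hφ, c, hc, hcO, hcw⟩ := lim_all hT hl h0 hq hv0 hvv _ hO' ⟨hvO, hvw⟩
  obtain ⟨hfi, hf0, hff⟩ := mon_int hT hl h0 hq hφ
  set f : V n := φ l with hf
  have hfw : T.B f w ≠ 0 := by
    intro h
    rw [map_smul, LinearMap.smul_apply, h, smul_zero] at hcw
    exact lt_irrefl _ hcw
  obtain ⟨k1, k2, k3⟩ := hOp _ hcO
  have e1 : ∀ a, adj T.toModuli a (c • f) w = adj T.toModuli a f w := by
    intro a
    have := adj_smul (T := T.toModuli) (a := a) (x := f) (y := w) hc one_ne_zero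
    rwa [one_smul] at this
  simp only [e1] at k1 k2 k3
  have orthN : ∀ a, T.Orth (Submodule.span ℝ {f}) (adj T.toModuli a f w) := by
    intro a
    rw [orth_span_singleton]
    exact adj_left hff hfw
  obtain ⟨M, hMW, hMN, hnef⟩ := exists_manifold hF (N := Submodule.span ℝ {f})
    (Submodule.subset_span (by simp)) hfi hf0 hff (orthN _) (orthN _) k2 k3 hW k1
  have hfN : T.Orth (T.period M) f := (hMN f hfi).2 (Submodule.subset_span (by simp))
  have hsq : ∀ x, IsInt x → T.Orth (T.period M) x → T.B x x = 0 := by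
    intro x hx hxP
    obtain ⟨s, rfl⟩ := Submodule.mem_span_singleton.1 ((hMN x hx).1 hxP)
    simp only [map_smul, LinearMap.smul_apply, hff, smul_zero]
  refine ⟨M, hMW, ?_, ?_, ?_, ⟨φ, hφ, hnef⟩, ?_⟩
  · rintro ⟨x, hx, hxx⟩
    rw [hsq x hx.1 hx.2] at hxx
    exact lt_irrefl _ hxx
  · have hspan : Submodule.span ℝ {x : V n | T.NS M x} = Submodule.span ℝ {f} := by
      apply le_antisymm
      · rw [Submodule.span_le]
        intro x hx
        exact (hMN x hx.1).1 hx.2
      · rw [Submodule.span_le]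
        intro x hx
        rw [Set.mem_singleton_iff.1 hx]
        exact Submodule.subset_span ⟨hfi, hfN⟩
    rw [Moduli.picard, hspan]
    exact finrank_span_singleton hf0
  · intro δ hδ hδP
    obtain ⟨hδi, hδn⟩ := hT.mbm δ hδ
    rw [hsq δ hδi hδP] at hδn
    exact lt_irrefl _ hδn
  · intro x hx
    obtain ⟨y, hy⟩ := hT.nonempty M
    have hyx := nef_pos hF hx hy
    have hyf := nef_pos hF hnef hy
    obtain ⟨α, hα⟩ := Submodule.mem_span_singleton.1 ((hMN x hx.1.1).1 hx.1.2)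
    have hα0 : 0 < α := by
      rw [← hα, map_smul, smul_eq_mul] at hyx
      exact (pos_iff_pos_of_mul_pos hyx).2 hyf
    obtain ⟨p, q, hp, hq, hpq⟩ := prop_nat hx.1.1 hfi hf0 hα0 hα.symm
    exact ⟨φ, hφ, p, q, hp, hq, hpq⟩

/-- Known facts on the classes of the line bundles `π^* A`, `A` ample on the projective variety `B`:
there is an ample line bundle, and the pull-back is a non-trivial nef line bundle with `q = 0`. -/
structure PullFacts (T : Fibrations.{u} n) : Prop where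
  nonempty : ∀ M (π : T.Fib M), (T.pull M π).Nonempty
  nef : ∀ M (π : T.Fib M), ∀ x ∈ T.pull M π, T.NefIsotropic M x

theorem syz_mul {M : T.Mk} {x : V n} {k : ℕ} (hk : 0 < k) (h : T.SYZ M ((k : ℝ) • x)) :
    T.SYZ M x := by
  obtain ⟨π, j, hj, hjx⟩ := h
  refine ⟨π, j * k, Nat.mul_pos hj hk, ?_⟩
  rw [smul_smul] at hjx
  push_cast
  exact hjx

theorem mul_syz (hT : T.Facts) {M : T.Mk} {x : V n} {k : ℕ} (hk : 0 < k) (h : T.SYZ M x) :
    T.SYZ M ((k : ℝ) • x) := by
  obtain ⟨π, j, hj, hjx⟩ := h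
  refine ⟨π, j, hj, ?_⟩
  rw [smul_comm]
  exact hT.pull_smul _ _ _ hjx k hk

/-- **The existence of some fibration decides.** -/
theorem syz_iff (hT : T.Facts) (hp : PullFacts T) {M : T.Mk} {l : V n} (hM : Decides T M l)
    {M' : T.Mk} {l' : V n} (hl' : T.NefIsotropic M' l') {χ : V n ≃ₗ[ℝ] V n} (hχ : χ ∈ T.mon)
    {k : ℕ} (hk : 0 < k) (hχl : χ l' = (k : ℝ) • l) : T.SYZ M' l' ↔ Nonempty (T.Fib M) := by
  obtain ⟨⟨φ, hφ, hnef⟩, hall⟩ := hM
  obtain ⟨M₁, h1, h2⟩ := hT.relabel χ hχ M'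
  have h3 := h2 l' hl'
  rw [hχl] at h3
  constructor
  · intro h
    rw [← h1, hχl] at h
    obtain ⟨M₂, h4, h5⟩ := hT.relabel φ hφ M₁
    have h6 := h5 _ h3
    rw [← h4] at h
    rw [map_smul] at h6 h
    obtain ⟨π, -⟩ := hT.matsushita _ _ _ h6 (nef_smul hnef hk) h
    exact ⟨π⟩
  · rintro ⟨π⟩
    obtain ⟨x, hx⟩ := hp.nonempty M π
    have hxn := hp.nef M π x hx
    obtain ⟨ψ, hψ, p, q, hp0, hq0, hpq⟩ := hall x hxn
    have hs : T.SYZ M ((p : ℝ) • ψ l) := by
      refine ⟨π, 1, one_pos, ?_⟩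
      rw [Nat.cast_one, one_smul, ← hpq]
      exact hT.pull_smul _ _ _ hx q hq0
    have hn : T.NefIsotropic M ((p : ℝ) • ψ l) := by
      rw [← hpq]
      exact nef_smul hxn hq0
    obtain ⟨M₂, h4, h5⟩ := hT.relabel ψ hψ M₁
    have h6 := h5 _ h3
    rw [map_smul] at h6
    rw [← h1, hχl, ← h4, map_smul]
    refine syz_mul hp0 ?_
    rw [smul_comm]
    have h7 := nef_smul h6 hp0
    rw [smul_comm] at h7
    exact hT.matsushita _ _ _ (nef_smul hn hk) h7 (mul_syz hT hk hs)

/-- Finitely many manifolds with a property decide. -/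
theorem finitely_many (hT : T.Facts) (hp : PullFacts T) (Q : T.Mk → Prop)
    (h : ∀ l, IsInt l → l ≠ 0 → T.B l l = 0 → ∃ M, Q M ∧ Decides T M l) :
    ∃ (m : ℕ) (M : Fin m → T.Mk), (∀ i, Q (M i) ∧ ∃ l, T.NefIsotropic (M i) l) ∧
      ((∀ M l, T.NefIsotropic M l → T.SYZ M l) ↔ ∀ i, Nonempty (T.Fib (M i))) := by
  obtain ⟨S, hS, hSl⟩ := hT.orbits
  have h' : ∀ s : S, ∃ M, Q M ∧ Decides T M s := fun s =>
    h s (hS s s.2).1 (hS s s.2).2.1 (hS s s.2).2.2
  choose M hQ hM using h'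
  refine ⟨S.card, fun i => M (S.equivFin.symm i), fun i => ⟨hQ _, ?_⟩, fun hall i => ?_,
    fun hall M' l hl => ?_⟩
  · obtain ⟨φ, -, hnef⟩ := (hM (S.equivFin.symm i)).1
    exact ⟨_, hnef⟩
  · obtain ⟨φ, -, hnef⟩ := (hM (S.equivFin.symm i)).1
    obtain ⟨π, -⟩ := hall _ _ hnef
    exact ⟨π⟩
  · obtain ⟨s, hs, χ, hχ, k, hk, he⟩ := hSl l hl.1.1 hl.2.1 hl.2.2.1
    have h1 := hall (S.equivFin ⟨s, hs⟩)
    simp only [Equiv.symm_apply_apply] at h1
    exact (syz_iff hT hp (hM ⟨s, hs⟩) hl hχ hk he).2 h1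

end Pool.Agent.H96.SYZ
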