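import Pool.Graph.R_pool_sql_team_seeded_3997aac3.Q34.HF.Main

/-!
# Periods near a given one, orthogonal to prescribed integral classes
-/

set_option autoImplicit false
set_option maxHeartbeats 4000000
set_option synthInstance.maxHeartbeats 400000

universe u

namespace Pool.Agent.H96.SYZ

open Pool.Agent.Q50.HK Pool.Agent.Q50.HK.Moduli Pool.Agent.Q34.HF Filter Topology

variable {n : ℕ}

/-- `z` is a possible class of a holomorphic symplectic form: `q (z, z) = 0`, `q (z, \bar z) > 0`. -/
def Symp (T : Moduli.{u} n) (z : Fin n → ℂ) : Prop :=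
  T.B (reP z) (reP z) = T.B (imP z) (imP z) ∧ T.B (reP z) (imP z) = 0 ∧ 0 < T.B (reP z) (reP z)

/-- The component of `b` orthogonal to `a`. -/
noncomputable def perp (T : Moduli.{u} n) (a b : V n) : V n := b - (T.B a b / T.B a a) • a

/-- The factor. -/
noncomputable def fac (T : Moduli.{u} n) (a b : V n) : ℝ :=
  Real.sqrt (T.B a a / T.B (perp T a b) (perp T a b))

/-- The Gram-Schmidt process. -/
noncomputable def gs (T : Moduli.{u} n) (a b : V n) : Fin n → ℂ :=
  fun i => (a i : ℂ) + Complex.I * ((fac T a b * perp T a b i : ℝ) : ℂ)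

section

variable {T : Moduli.{u} n}

theorem reP_gs (a b : V n) : reP (gs T a b) = a := by
  funext i
  simp [reP, gs]

theorem imP_gs (a b : V n) : imP (gs T a b) = fac T a b • perp T a b := by
  funext i
  simp [imP, gs]

theorem perp_sq (hT : T.Facts) {a b : V n} (g1 : 0 < T.B a a) :
    T.B (perp T a b) (perp T a b) = T.B b b - T.B a b ^ 2 / T.B a a := by
  have := g1.ne'
  simp only [perp, map_sub, LinearMap.sub_apply, map_smul, LinearMap.smul_apply, smul_eq_mul,
    hT.symm b a]
  field_simp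
  ring

theorem perp_pos (hT : T.Facts) {a b : V n} (g1 : 0 < T.B a a)
    (g2 : T.B a b ^ 2 < T.B a a * T.B b b) : 0 < T.B (perp T a b) (perp T a b) := by
  rw [perp_sq hT g1, sub_pos, div_lt_iff₀ g1, mul_comm]
  exact g2

theorem perp_orth {a b : V n} (g1 : 0 < T.B a a) : T.B a (perp T a b) = 0 := by
  have := g1.ne'
  simp only [perp, map_sub, map_smul, smul_eq_mul]
  field_simp
  ring

theorem symp_gs (hT : T.Facts) {a b : V n} (g1 : 0 < T.B a a)
    (g2 : T.B a b ^ 2 < T.B a a * T.B b b) : Symp T (gs T a b) := by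
  have hp := perp_pos hT g1 g2
  refine ⟨?_, ?_, ?_⟩
  · rw [reP_gs, imP_gs]
    simp only [map_smul, LinearMap.smul_apply, smul_eq_mul]
    rw [← mul_assoc, ← sq, fac, Real.sq_sqrt (div_nonneg g1.le hp.le), div_mul_cancel₀ _ hp.ne']
  · rw [reP_gs, imP_gs, map_smul, perp_orth g1, smul_zero]
  · rw [reP_gs]
    exact g1

theorem plane_gs (hT : T.Facts) {a b : V n} (g1 : 0 < T.B a a)
    (g2 : T.B a b ^ 2 < T.B a a * T.B b b) :
    plane (gs T a b) = Submodule.span ℝ {a, b} := by
  have hp := perp_pos hT g1 g2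
  have hf : fac T a b ≠ 0 := by
    rw [fac]
    exact (Real.sqrt_pos.2 (div_pos g1 hp)).ne'
  rw [plane, reP_gs, imP_gs]
  apply le_antisymm
  · rw [Submodule.span_le]
    rintro x (rfl | hx)
    · exact Submodule.subset_span (by simp)
    · rw [Set.mem_singleton_iff.1 hx]
      refine Submodule.smul_mem _ _ (Submodule.sub_mem _ (Submodule.subset_span (by simp)) ?_)
      exact Submodule.smul_mem _ _ (Submodule.subset_span (by simp))
  · rw [Submodule.span_le]
    rintro x (rfl | hx)
    · exact Submodule.subset_span (by simp)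
    · rw [Set.mem_singleton_iff.1 hx]
      have e : b = (fac T a b)⁻¹ • fac T a b • perp T a b + (T.B a b / T.B a a) • a := by
        rw [smul_smul, inv_mul_cancel₀ hf, one_smul, perp]
        module
      rw [SetLike.mem_coe]
      nth_rewrite 3 [e]
      refine Submodule.add_mem _ (Submodule.smul_mem _ _ (Submodule.subset_span (by simp))) ?_
      exact Submodule.smul_mem _ _ (Submodule.subset_span (by simp))

theorem gs_self {z : Fin n → ℂ} (h : Symp T z) : gs T (reP z) (imP z) = z := by
  obtain ⟨h1, h2, h3⟩ := h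
  have e1 : perp T (reP z) (imP z) = imP z := by
    rw [perp, h2, zero_div, zero_smul, sub_zero]
  have e2 : fac T (reP z) (imP z) = 1 := by
    rw [fac, e1, ← h1, div_self h3.ne', Real.sqrt_one]
  funext i
  rw [gs, e1, e2, one_mul, mul_comm]
  exact Complex.re_add_im (z i)

theorem continuous_B (T : Moduli.{u} n) : Continuous fun p : V n × V n => T.B p.1 p.2 := by
  have h : ∀ p : V n × V n, T.B p.1 p.2 =
      ∑ i, p.2 i * T.B p.1 (fun j => if i = j then 1 else 0) := by
    intro p
    conv_lhs => rw [LinearMap.pi_apply_eq_sum_univ (T.B p.1) p.2]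
    rfl
  simp_rw [h]
  refine continuous_finsetSum _ fun i _ => ?_
  exact ((continuous_apply i).comp continuous_snd).mul ((continuous_left T _).comp continuous_fst)

theorem cont_B {X : Type*} [TopologicalSpace X] {f g : X → V n} {x : X} (hf : ContinuousAt f x)
    (hg : ContinuousAt g x) : ContinuousAt (fun y => T.B (f y) (g y)) x :=
  (continuous_B T).continuousAt.comp (f := fun y => (f y, g y)) (hf.prodMk hg)

theorem cont_gs {X : Type*} [TopologicalSpace X] {f g : X → V n} {x : X} (hT : T.Facts)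
    (hf : ContinuousAt f x) (hg : ContinuousAt g x) (g1 : 0 < T.B (f x) (f x))
    (g2 : T.B (f x) (g x) ^ 2 < T.B (f x) (f x) * T.B (g x) (g x)) :
    ContinuousAt (fun y => gs T (f y) (g y)) x := by
  have hp : ContinuousAt (fun y => perp T (f y) (g y)) x := by
    unfold perp
    exact hg.sub (((cont_B hf hg).div (cont_B hf hf) g1.ne').smul hf)
  have hq : ContinuousAt (fun y => fac T (f y) (g y)) x := by
    unfold fac
    exact ((cont_B hf hf).div (cont_B hp hp) (perp_pos hT g1 g2).ne').sqrt
  rw [continuousAt_pi]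
  intro i
  unfold gs
  refine ContinuousAt.add ?_ ?_
  · exact Complex.continuous_ofReal.continuousAt.comp ((continuous_apply i).continuousAt.comp hf)
  · refine continuousAt_const.mul ?_
    exact Complex.continuous_ofReal.continuousAt.comp
      (hq.mul ((continuous_apply i).continuousAt.comp hp))

/-- **Manifolds with a given Néron-Severi space and period in a given open set.** -/
theorem exists_manifold (hT : T.Facts) {N : Submodule ℝ (V n)} {l : V n} (hlN : l ∈ N)
    (hl : IsInt l) (h0 : l ≠ 0) (hq : T.B l l = 0) {a b : V n} (ha : T.Orth N a)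
    (hb : T.Orth N b) (g1 : 0 < T.B a a) (g2 : T.B a b ^ 2 < T.B a a * T.B b b)
    {W : Set (Fin n → ℂ)} (hW : IsOpen W) (hab : gs T a b ∈ W) :
    ∃ M, (∃ z ∈ W, Symp T z ∧ T.period M = plane z) ∧
      (∀ x, IsInt x → (T.Orth (T.period M) x ↔ x ∈ N)) ∧ T.NefIsotropic M l := by
  have hev : ∀ᶠ w in 𝓝 a, gs T w b ∈ W ∧ 0 < T.B w w ∧ T.B w b ^ 2 < T.B w w * T.B b b := by
    refine Filter.Eventually.and ?_ (Filter.Eventually.and ?_ ?_)
    · exact (cont_gs (f := id) (g := fun _ => b) hT continuousAt_id continuousAt_const g1 g2)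
        (hW.mem_nhds hab)
    · exact (isOpen_lt continuous_const (continuous_form T)).mem_nhds g1
    · exact (isOpen_lt ((continuous_left T b).pow 2)
        ((continuous_form T).mul continuous_const)).mem_nhds g2
  obtain ⟨U, hUs, hU, haU⟩ := _root_.mem_nhds_iff.1 hev
  obtain ⟨a', ha', haU', hgen⟩ := generic T (T.B.orthogonal N) {x | IsInt x ∧ x ∉ N}
    (countable_int.mono fun x hx => hx.1) (by
      rintro x ⟨-, hx⟩
      by_contra h
      push Not at h
      exact hx (mem_of_orth hT N fun s hs => h s hs)) hU (u := a) (fun p hp => ha p hp) haU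
  obtain ⟨h1, h2, h3⟩ := hUs haU'
  obtain ⟨hP2, hPp⟩ := span_pair hT h2 h3
  have hNP : ∀ x ∈ N, T.Orth (Submodule.span ℝ {a', b}) x := by
    intro x hx
    rw [orth_span_pair]
    exact ⟨by rw [hT.symm]; exact ha' x hx, by rw [hT.symm]; exact hb x hx⟩
  obtain ⟨M, hM, hnef⟩ := Pool.Agent.Q34.HF.exists_nef hT hP2 hPp hl h0 hq (hNP l hlN)
  refine ⟨M, ⟨gs T a' b, h1, symp_gs hT h2 h3, by rw [hM, plane_gs hT h2 h3]⟩, fun x hx => ?_,
    ⟨hl, by rw [hM]; exact hNP l hlN⟩, h0, hq, hnef⟩
  rw [hM]
  refine ⟨fun h => ?_, hNP x⟩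
  by_contra hxN
  rw [orth_span_pair] at h
  exact hgen x ⟨hx, hxN⟩ h.1

end

end Pool.Agent.H96.SYZ
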