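import Pool.Agent.H96.SYZ.Gs

/-!
# Two isotropic classes of the same orbit near given ones, with no classes of small negative square in
their plane
-/

set_option autoImplicit false
set_option maxHeartbeats 4000000
set_option synthInstance.maxHeartbeats 400000

universe u

namespace Pool.Agent.H96.SYZ

open Pool.Agent.Q50.HK Pool.Agent.Q50.HK.Moduli Pool.Agent.Q34.HF
  Pool.Agent.Q34.HF.Fibrations Filter Topology

variable {n : ℕ}

section

variable {T : Moduli.{u} n}

/-- A class of positive square orthogonal to two classes. -/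
theorem pos_pair (hT : T.Facts) (f h : V n) : ∃ y, T.B f y = 0 ∧ T.B h y = 0 ∧ 0 < T.B y y := by
  obtain ⟨W, hW3, hWp, -⟩ := hT.signature
  have h2 : LinearMap.ker (((T.B f).comp W.subtype).prod ((T.B h).comp W.subtype)) ≠ ⊥ := by
    apply LinearMap.ker_ne_bot_of_finrank_lt
    rw [Module.finrank_prod, Module.finrank_self, hW3]
    norm_num
  obtain ⟨v, hv, hv0⟩ := (Submodule.ne_bot_iff _).1 h2
  exact ⟨v, congrArg Prod.fst (LinearMap.mem_ker.1 hv), congrArg Prod.snd (LinearMap.mem_ker.1 hv),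
    hWp v v.2 (by simpa using hv0)⟩

/-- A class of negative square orthogonal to a hyperbolic plane. -/
theorem neg_pair (hT : T.Facts) (hn : 5 ≤ n) {f h : V n} (hf : T.B f f = 0) (hh : T.B h h = 0)
    (hfh : T.B f h ≠ 0) : ∃ y, T.B f y = 0 ∧ T.B h y = 0 ∧ T.B y y < 0 := by
  set r : ℝ := T.B f h with hr
  have hhf : T.B h f = r := by rw [hT.symm]
  set q : V n := f - r • h with hq
  set p : V n := f + r • h with hp
  obtain ⟨e, he1, he2⟩ := neg_line hT hn q
  have hpp : T.B p p = 2 * r ^ 2 := by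
    rw [hp]
    simp only [map_add, LinearMap.add_apply, map_smul, LinearMap.smul_apply, smul_eq_mul, hf, hh,
      hhf, ← hr]
    ring
  have hpp0 : 0 < T.B p p := by
    rw [hpp]
    positivity
  have hqp : T.B q p = 0 := by
    rw [hp, hq]
    simp only [map_add, map_sub, LinearMap.sub_apply, map_smul, LinearMap.smul_apply, smul_eq_mul,
      hf, hh, hhf, ← hr]
    ring
  set y : V n := e - (T.B p e / T.B p p) • p with hy
  have hqy : T.B q y = 0 := by
    rw [hy, map_sub, map_smul, he1, hqp]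
    simp
  have hpy : T.B p y = 0 := by
    rw [hy, map_sub, map_smul, smul_eq_mul]
    field_simp
    ring
  have h1 : T.B f y = 0 := by
    have e1 : (2 : ℝ) • f = p + q := by
      rw [hp, hq]
      module
    have e2 : 2 * T.B f y = 0 := by
      rw [← smul_eq_mul, ← LinearMap.smul_apply, ← map_smul, e1, map_add, LinearMap.add_apply,
        hpy, hqy, add_zero]
    linarith
  refine ⟨y, h1, ?_, ?_⟩
  · have e2 : T.B f y + r * T.B h y = 0 := by
      have := hpy
      rw [hp, map_add, LinearMap.add_apply, map_smul, LinearMap.smul_apply, smul_eq_mul] at this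
      exact this
    rw [h1, zero_add] at e2
    exact (mul_eq_zero.1 e2).resolve_left hfh
  · have e3 : T.B y y = T.B e e - T.B p e ^ 2 / T.B p p := by
      rw [hy]
      simp only [map_sub, LinearMap.sub_apply, map_smul, LinearMap.smul_apply, smul_eq_mul,
        hT.symm e p]
      field_simp
      ring
    rw [e3]
    have : 0 ≤ T.B p e ^ 2 / T.B p p := by positivity
    linarith

/-- `B f h` times the orthogonal projection to the complement of `f` and `h`. -/
def prj (T : Moduli.{u} n) (f h x : V n) : V n := T.B f h • x - T.B h x • f - T.B f x • h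

theorem prj_left {f h : V n} (hf : T.B f f = 0) (x : V n) :
    T.B f (prj T f h x) = 0 := by
  simp only [prj, map_sub, map_smul, smul_eq_mul, hf]
  ring

theorem prj_right (hT : T.Facts) {f h : V n} (hh : T.B h h = 0) (x : V n) :
    T.B h (prj T f h x) = 0 := by
  simp only [prj, map_sub, map_smul, smul_eq_mul, hh, hT.symm h f]
  ring

theorem prj_int (hT : T.Facts) {f h x : V n} (hf : IsInt f) (hh : IsInt h) (hx : IsInt x) :
    IsInt (prj T f h x) := by
  obtain ⟨p, hp⟩ := hT.integral f h hf hh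
  obtain ⟨q, hq⟩ := hT.integral h x hh hx
  obtain ⟨r, hr⟩ := hT.integral f x hf hx
  rw [prj, hp, hq, hr]
  exact ((hx.zsmul _).sub (hf.zsmul _)).sub (hh.zsmul _)

theorem prj_smul (f h : V n) (c : ℝ) (x : V n) : prj T f h (c • x) = c • prj T f h x := by
  simp only [prj, map_smul, smul_eq_mul]
  module

theorem prj_continuous (f h : V n) : Continuous (prj T f h) := by
  have h1 : Continuous fun x : V n => T.B h x := LinearMap.continuous_of_finiteDimensional (T.B h)
  have h2 : Continuous fun x : V n => T.B f x := LinearMap.continuous_of_finiteDimensional (T.B f)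
  have h3 : Continuous fun x : V n => T.B f h • x - T.B h x • f - T.B f x • h :=
    ((continuous_id.const_smul (T.B f h)).sub (h1.smul continuous_const)).sub
      (h2.smul continuous_const)
  exact h3

/-- An integral class orthogonal to `f` and `h` but not to `g`, with square of given sign. -/
theorem exists_m (hT : T.Facts) (hn : 5 ≤ n) {f h g : V n} (hfi : IsInt f) (hhi : IsInt h)
    (hf : T.B f f = 0) (hh : T.B h h = 0) (hfh : T.B f h ≠ 0) {s : V n} (hsf : T.B f s = 0)
    (hsh : T.B h s = 0) (hsg : T.B s g ≠ 0) {e : ℝ} (he : e ≠ 0) :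
    ∃ m, IsInt m ∧ T.B f m = 0 ∧ T.B h m = 0 ∧ T.B m g ≠ 0 ∧ 0 < e * T.B m m := by
  obtain ⟨m₀, h1, h2, h3⟩ : ∃ m₀, T.B f m₀ = 0 ∧ T.B h m₀ = 0 ∧ 0 < e * T.B m₀ m₀ := by
    rcases lt_or_gt_of_ne he with he | he
    · obtain ⟨y, y1, y2, y3⟩ := neg_pair hT hn hf hh hfh
      exact ⟨y, y1, y2, mul_pos_of_neg_of_neg he y3⟩
    · obtain ⟨y, y1, y2, y3⟩ := pos_pair hT f h
      exact ⟨y, y1, y2, mul_pos he y3⟩
  have hcf : Continuous fun w : V n => e * T.B w w := continuous_const.mul (continuous_form T)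
  obtain ⟨m₁, hm1, hm2, hm3⟩ := generic T (T.B.orthogonal (Submodule.span ℝ {f, h})) {g}
    (Set.countable_singleton g) (by
      intro x hx
      rw [Set.mem_singleton_iff.1 hx]
      refine ⟨s, fun p hp => ?_, hsg⟩
      exact (orth_span_pair (T := T)).2 ⟨hsf, hsh⟩ p hp) (isOpen_lt continuous_const hcf)
    (u := m₀) (fun p hp => (orth_span_pair (T := T)).2 ⟨h1, h2⟩ p hp) h3
  have hm1' : T.Orth (Submodule.span ℝ {f, h}) m₁ := hm1
  rw [orth_span_pair] at hm1'
  have hm3' := hm3 g (Set.mem_singleton g)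
  have hpr : prj T f h m₁ = T.B f h • m₁ := by
    rw [prj, hm1'.1, hm1'.2, zero_smul, zero_smul, sub_zero, sub_zero]
  obtain ⟨D, y, hD, hy, hy1, hy2⟩ := exists_rational
    (O := {w : V n | 0 < e * T.B (prj T f h w) (prj T f h w) ∧ T.B (prj T f h w) g ≠ 0})
    ((isOpen_lt continuous_const (hcf.comp (prj_continuous f h))).inter
      (isOpen_ne.preimage ((continuous_left T g).comp (prj_continuous f h))))
    ⟨m₁, by
      rw [hpr]
      simp only [map_smul, LinearMap.smul_apply, smul_eq_mul]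
      have e1 : e * (T.B f h * (T.B f h * T.B m₁ m₁)) = T.B f h ^ 2 * (e * T.B m₁ m₁) := by ring
      rw [e1]
      have : 0 < T.B f h ^ 2 := by positivity
      exact mul_pos this hm2, by
      rw [hpr, map_smul, LinearMap.smul_apply, smul_eq_mul]
      exact mul_ne_zero hfh hm3'⟩
  have hDr : (0 : ℝ) < D := by exact_mod_cast hD
  rw [prj_smul] at hy1 hy2
  refine ⟨prj T f h y, prj_int hT hfi hhi hy, prj_left hf y, prj_right hT hh y, ?_, ?_⟩
  · intro h0
    apply hy2
    rw [map_smul, LinearMap.smul_apply, h0, smul_zero]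
  · simp only [map_smul, LinearMap.smul_apply, smul_eq_mul] at hy1
    have e1 : e * ((D : ℝ)⁻¹ * ((D : ℝ)⁻¹ * T.B (prj T f h y) (prj T f h y))) =
        ((D : ℝ)⁻¹ ^ 2) * (e * T.B (prj T f h y) (prj T f h y)) := by ring
    rw [e1] at hy1
    exact (mul_pos_iff_of_pos_left (by positivity)).1 hy1

/-- An integral class orthogonal to `h` and `m`, with square of given sign. -/
theorem exists_a' (hT : T.Facts) (hn : 5 ≤ n) {h m : V n} (hhi : IsInt h) (hh0 : h ≠ 0)
    (hmi : IsInt m) (hhm : T.B h m = 0) {e : ℝ} (he : e ≠ 0) (hm : 0 < -e * T.B m m) :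
    ∃ a, IsInt a ∧ T.B h a = 0 ∧ T.B m a = 0 ∧ 0 < e * T.B a a := by
  obtain ⟨z, hz, hzh⟩ := exists_z hT hh0
  obtain ⟨F, hF⟩ := ratProj_line hT hhi hz hzh.ne'
  obtain ⟨x, hx, hxx⟩ : ∃ x, T.B h x = 0 ∧ 0 < e * T.B x x := by
    rcases lt_or_gt_of_ne he with he | he
    · obtain ⟨y, y1, y2⟩ := neg_line hT hn h
      exact ⟨y, y1, mul_pos_of_neg_of_neg he y2⟩
    · obtain ⟨y, y1, -, y3⟩ := pos_pair hT h h
      exact ⟨y, y1, mul_pos he y3⟩
  obtain ⟨a₀, ha₀, hha₀, haa₀⟩ := approx hF (orth_span_singleton.2 hx) hxx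
  rw [orth_span_singleton] at hha₀
  obtain ⟨p, hp⟩ := hT.integral m m hmi hmi
  obtain ⟨q, hq⟩ := hT.integral m a₀ hmi ha₀
  refine ⟨T.B m m • a₀ - T.B m a₀ • m, ?_, ?_, ?_, ?_⟩
  · rw [hp, hq]
    exact (ha₀.zsmul _).sub (hmi.zsmul _)
  · rw [map_sub, map_smul, map_smul, hha₀, hhm, smul_zero, smul_zero, sub_zero]
  · rw [map_sub, map_smul, map_smul, smul_eq_mul, smul_eq_mul]
    ring
  · have e1 : e * T.B (T.B m m • a₀ - T.B m a₀ • m) (T.B m m • a₀ - T.B m a₀ • m) =
        T.B m m ^ 2 * (e * T.B a₀ a₀) + (-e * T.B m m) * T.B m a₀ ^ 2 := by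
      simp only [map_sub, LinearMap.sub_apply, map_smul, LinearMap.smul_apply, smul_eq_mul,
        hT.symm a₀ m]
      ring
    rw [e1]
    have hm0 : T.B m m ≠ 0 := by
      intro h0
      rw [h0] at hm
      simp at hm
    have h2 : 0 < T.B m m ^ 2 := by positivity
    have h3 := mul_pos h2 haa₀
    have h4 := mul_nonneg hm.le (sq_nonneg (T.B m a₀))
    linarith

end

variable {T : Fibrations.{u} n}

/-- Monodromy operators map integral isotropic classes to such classes. -/
theorem mon_int (hT : T.Facts) {l : V n} (hl : IsInt l) (h0 : l ≠ 0) (hq : T.B l l = 0)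
    {φ : V n ≃ₗ[ℝ] V n} (hφ : φ ∈ T.mon) : IsInt (φ l) ∧ φ l ≠ 0 ∧ T.B (φ l) (φ l) = 0 := by
  obtain ⟨M₀, hM₀⟩ := exists_nef_of_isotropic hT hl h0 hq
  obtain ⟨M'', hM1, hM2⟩ := hT.relabel φ hφ M₀
  have hl2 := hM2 l hM₀
  exact ⟨hl2.1.1, hl2.2.1, hl2.2.2.1⟩

/-- A class of the orbit which is orthogonal neither to `h` nor to a class `s` orthogonal to `h`. -/
theorem exists_l' (hT : T.Facts) {l : V n} (hl : IsInt l) (h0 : l ≠ 0) (hq : T.B l l = 0)
    {h s : V n} (hh0 : h ≠ 0) (hhh : T.B h h = 0) (hs0 : s ≠ 0) (hhs : T.B h s = 0) :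
    ∃ ψ ∈ T.mon, T.B h (ψ l) ≠ 0 ∧ T.B s (ψ l) ≠ 0 := by
  have hF : T.toModuli.Facts := hT.toFacts
  have hnd : ∀ x : V n, x ≠ 0 → ∃ s ∈ (⊤ : Submodule ℝ (V n)), T.B s x ≠ 0 := by
    intro x hx
    by_contra h
    push Not at h
    exact hx (nondeg hF fun y => by rw [hF.symm]; exact h y trivial)
  obtain ⟨x, -, -, hx⟩ := generic T.toModuli ⊤ {h, s} ((Set.countable_singleton s).insert h) (by
    rintro y (rfl | hy)
    · exact hnd _ hh0
    · rw [Set.mem_singleton_iff.1 hy]
      exact hnd _ hs0) isOpen_univ (u := 0) trivial trivial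
  have hxh := hx h (by simp)
  have hxs := hx s (by simp)
  set v : V n := Fibrations.refl T.toModuli h x with hv
  have hvh : T.B v h ≠ 0 := by
    rw [hv, refl_pair, hhh, hF.symm h x]
    have : T.B x h * T.B x h ≠ 0 := mul_ne_zero hxh hxh
    intro h
    apply this
    linarith
  have hvs : T.B v s ≠ 0 := by
    rw [hv, refl_pair, hhs, hF.symm h x]
    have : T.B x h * T.B x s ≠ 0 := mul_ne_zero hxh hxs
    intro h
    apply this
    linarith
  have hv0 : v ≠ 0 := by
    intro h
    rw [h] at hvh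
    simp at hvh
  obtain ⟨ψ, hψ, c, hc, h1, h2⟩ := lim_all hT hl h0 hq hv0 (refl_sq hF hhh)
    {w | T.B w h ≠ 0 ∧ T.B w s ≠ 0} ((isOpen_ne.preimage (continuous_left T.toModuli h)).inter
      (isOpen_ne.preimage (continuous_left T.toModuli s))) ⟨hvh, hvs⟩
  refine ⟨ψ, hψ, ?_, ?_⟩
  · intro h
    apply h1
    rw [map_smul, LinearMap.smul_apply, hF.symm, h, smul_zero]
  · intro h
    apply h2
    rw [map_smul, LinearMap.smul_apply, hF.symm, h, smul_zero]

end Pool.Agent.H96.SYZ
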