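import Pool.Agent.H96.SYZ.Pair

/-!
# Two isotropic classes of the same orbit near given ones, with no classes of small negative square in
their plane: the construction
-/

set_option autoImplicit false
set_option maxHeartbeats 4000000
set_option synthInstance.maxHeartbeats 400000

universe u

namespace Pool.Agent.H96.SYZ

open Pool.Agent.Q50.HK Pool.Agent.Q50.HK.Moduli Pool.Agent.Q34.HF
  Pool.Agent.Q34.HF.Fibrations Filter Topology

variable {n : ℕ}

/-- The denominators of the integral classes in the plane of `f` and `g` are bounded. -/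
theorem small_square {T : Moduli.{u} n} (hT : T.Facts) {f g h m l' : V n}
    (hhi : IsInt h) (hmi : IsInt m) (hli : IsInt l') (hff : T.B f f = 0) (hgg : T.B g g = 0)
    (hhf : T.B h f ≠ 0) (hmf : T.B m f = 0) (hmg : T.B m g = T.B m l') (hml : T.B m l' ≠ 0)
    (hhg : T.B h g = T.B h l') (C : ℝ)
    (hD : |C| * (|T.B h f| * T.B m l' ^ 2) < T.B f g) {d : V n} (hd : IsInt d)
    (hdN : d ∈ Submodule.span ℝ {f, g}) (hdd : T.B d d < 0) : T.B d d < -C := by
  obtain ⟨x, y, rfl⟩ := Submodule.mem_span_pair.1 hdN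
  obtain ⟨p, hp⟩ := hT.integral m _ hmi hd
  obtain ⟨q, hq⟩ := hT.integral h _ hhi hd
  obtain ⟨μ, hμ⟩ := hT.integral m l' hmi hli
  obtain ⟨ν, hν⟩ := hT.integral h l' hhi hli
  have e1 : T.B (x • f + y • g) (x • f + y • g) = 2 * (x * y) * T.B f g := by
    simp only [map_add, LinearMap.add_apply, map_smul, LinearMap.smul_apply, smul_eq_mul, hff, hgg,
      hT.symm g f]
    ring
  have e2 : y * μ = p := by
    rw [← hp, map_add, map_smul, map_smul, hmf, hmg, hμ, smul_eq_mul, smul_eq_mul]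
    ring
  have e3 : x * T.B h f + y * ν = q := by
    rw [← hq, map_add, map_smul, map_smul, hhg, hν, smul_eq_mul, smul_eq_mul]
  have e4 : x * y * (T.B h f * μ ^ 2) = ((q * μ - ν * p) * p : ℤ) := by
    push_cast
    rw [← e2, ← e3]
    ring
  have hpos : 0 < |T.B h f| * T.B m l' ^ 2 := by
    have := abs_pos.2 hhf
    positivity
  have hfg : 0 < T.B f g := lt_of_le_of_lt (mul_nonneg (abs_nonneg C) hpos.le) hD
  rw [e1] at hdd ⊢
  have hxy : x * y < 0 := by
    by_contra h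
    push Not at h
    have := mul_nonneg (mul_nonneg (by norm_num : (0 : ℝ) ≤ 2) h) hfg.le
    linarith
  have h1 : (q * μ - ν * p) * p ≠ 0 := by
    intro hz
    rw [hz, Int.cast_zero] at e4
    rw [hμ] at hml
    have : T.B h f * (μ : ℝ) ^ 2 ≠ 0 := mul_ne_zero hhf (pow_ne_zero 2 hml)
    rcases mul_eq_zero.1 e4 with h2 | h2
    · exact hxy.ne h2
    · exact this h2
  have h2 : 1 ≤ |x * y| * (|T.B h f| * T.B m l' ^ 2) := by
    have h3 : |x * y * (T.B h f * μ ^ 2)| = |x * y| * (|T.B h f| * T.B m l' ^ 2) := by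
      rw [abs_mul, abs_mul (T.B h f), hμ, abs_of_nonneg (sq_nonneg (μ : ℝ))]
    rw [← h3, e4, ← Int.cast_abs]
    exact_mod_cast Int.one_le_abs h1
  rw [abs_of_neg hxy] at h2
  have h3 := le_abs_self C
  have h4 := abs_nonneg C
  set R := |T.B h f| * T.B m l' ^ 2
  have h5 : |C| * R * 1 ≤ T.B f g * (-(x * y) * R) := by
    refine mul_le_mul hD.le h2 (by norm_num) hfg.le
  have h6 : |C| ≤ T.B f g * -(x * y) := by
    by_contra hcon
    push Not at hcon
    have := mul_lt_mul_of_pos_right hcon hpos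
    nlinarith
  have h7 : 0 < T.B f g * -(x * y) := mul_pos hfg (by linarith)
  nlinarith

variable {T : Fibrations.{u} n}

theorem exists_pair (hT : T.Facts) (hn : 5 ≤ n) {l : V n} (hl : IsInt l) (h0 : l ≠ 0)
    (hq : T.B l l = 0) (C : ℝ) {v w : V n} (hvv : T.B v v = 0) (hww : T.B w w = 0)
    (hvw : 0 < T.B v w) {O : Set (V n × V n)} (hO : IsOpen O) (hvwO : (v, w) ∈ O) :
    ∃ φ ∈ T.mon, ∃ ψ ∈ T.mon, ∃ c c' : ℝ, c ≠ 0 ∧ c' ≠ 0 ∧ (c • φ l, c' • ψ l) ∈ O ∧
      0 < T.B (φ l) (ψ l) ∧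
      ∀ d, IsInt d → d ∈ Submodule.span ℝ {φ l, ψ l} → T.B d d < 0 → T.B d d < -C := by
  have hF : T.toModuli.Facts := hT.toFacts
  have hv0 : v ≠ 0 := by
    rintro rfl
    simp at hvw
  have hw0 : w ≠ 0 := by
    rintro rfl
    simp at hvw
  set β : ℝ := T.B v w / 2 with hβ
  have hβ0 : 0 < β := by positivity
  have hO' : IsOpen (O ∩ {p : V n × V n | β < T.B p.1 p.2}) :=
    hO.inter (isOpen_lt continuous_const (continuous_B T.toModuli))
  obtain ⟨O₁, O₂, hO₁, hO₂, hvO, hwO, hsub⟩ := isOpen_prod_iff.1 hO' v w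
    ⟨hvwO, by change T.B v w / 2 < T.B v w; linarith⟩
  obtain ⟨φ, hφ, c, hc, hcO⟩ := lim_all hT hl h0 hq hv0 hvv O₁ hO₁ hvO
  obtain ⟨ψ₀, hψ₀, c₂, hc₂, hc₂O⟩ := lim_all hT hl h0 hq hw0 hww O₂ hO₂ hwO
  obtain ⟨hfi, hf0, hff⟩ := mon_int hT hl h0 hq hφ
  obtain ⟨hhi, hh0, hhh⟩ := mon_int hT hl h0 hq hψ₀
  set f : V n := φ l with hf
  set h : V n := ψ₀ l with hh
  have hfh : T.B f h ≠ 0 := by
    have h1 := (hsub (Set.mk_mem_prod hcO hc₂O)).2
    intro h2
    have h3 : β < T.B (c • f) (c₂ • h) := h1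
    rw [map_smul, map_smul, LinearMap.smul_apply, h2, smul_zero, smul_zero] at h3
    linarith
  obtain ⟨s, hfs, hhs, hss⟩ := pos_pair hF f h
  have hs0 : s ≠ 0 := by
    rintro rfl
    simp at hss
  obtain ⟨ψ₁, hψ₁, hhl, hsl⟩ := exists_l' hT hl h0 hq hh0 hhh hs0 hhs
  obtain ⟨hli, hl'0, hll⟩ := mon_int hT hl h0 hq hψ₁
  set l' : V n := ψ₁ l with hl'
  set e : ℝ := -(c * c₂ * T.B h l') with he
  have he0 : e ≠ 0 := by
    rw [he]
    exact neg_ne_zero.2 (mul_ne_zero (mul_ne_zero hc hc₂) hhl)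
  obtain ⟨m, hmi, hfm, hhm, hml, hmm⟩ := exists_m hF hn hfi hhi hff hhh hfh hfs hhs hsl
    (neg_ne_zero.2 he0)
  obtain ⟨a, hai, hha, hma, haa⟩ := exists_a' hF hn hhi hh0 hmi hhm he0 hmm
  obtain ⟨k, hk, hfin⟩ := hT.finite_index
  have h2a : T.B h ((2 : ℝ) • a) = 0 := by rw [map_smul, hha, smul_zero]
  have hψ := hfin (tvE hF h ((2 : ℝ) • a) hhh h2a)
    (fun x y => by
      rw [tvE_apply, tvE_apply]
      exact tv_isometry hF hhh h2a x y)
    (fun x => by
      constructor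
      · intro hx
        rw [tvE_apply]
        exact tv_int hF hhi hai hx
      · intro hx
        have h1 := tv_int hF hhi hai.neg hx
        rw [tvE_apply, tv_comp hF hhh (by rw [map_smul, map_neg, hha]; simp) h2a] at h1
        have e : (2 : ℝ) • -a + (2 : ℝ) • a = 0 := by module
        rw [e, tv_zero] at h1
        exact h1)
  have hkr : (0 : ℝ) < k := by exact_mod_cast hk
  set κ : ℝ := -(2 * (k : ℝ) ^ 2 * T.B a a * T.B h l') with hκ
  have hκc : 0 < κ * (c * c₂) := by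
    have e1 : κ * (c * c₂) = 2 * (k : ℝ) ^ 2 * (e * T.B a a) := by
      rw [hκ, he]
      ring
    rw [e1]
    positivity
  have hκ0 : κ ≠ 0 := by
    intro h1
    rw [h1, zero_mul] at hκc
    exact lt_irrefl _ hκc
  set γ : ℝ := c₂ / κ with hγ
  have hγ0 : γ ≠ 0 := div_ne_zero hc₂ hκ0
  set u' : V n := γ • ((-(2 * (k : ℝ) * T.B a l')) • h + (2 * (k : ℝ) * T.B h l') • a) with hu'
  have happ : ∀ N : ℕ, (((tvE hF h ((2 : ℝ) • a) hhh h2a) ^ k) ^ N * ψ₁) l =
      tv T.B h (((k * N : ℕ) : ℝ) • (2 : ℝ) • a) l' := by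
    intro N
    rw [LinearEquiv.mul_apply, ← hl', ← pow_mul, tvE_pow]
  have key : ∀ N : ℕ, 0 < N → (γ * ((N : ℝ)⁻¹ * (N : ℝ)⁻¹)) •
      ((((tvE hF h ((2 : ℝ) • a) hhh h2a) ^ k) ^ N * ψ₁) l) =
      c₂ • h + (N : ℝ)⁻¹ • u' + ((N : ℝ)⁻¹ * (N : ℝ)⁻¹) • (γ • l') := by
    intro N hN
    have hNr : (N : ℝ) ≠ 0 := by exact_mod_cast hN.ne'
    rw [happ, tv_apply, hu']
    simp only [map_smul, LinearMap.smul_apply, smul_eq_mul]
    push_cast
    have hg2 : γ * κ = c₂ := by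
      rw [hγ]
      field_simp
    match_scalars
    · field_simp
    · rw [← hg2, hκ]
      field_simp
      ring
    · field_simp
  have h00 : Tendsto (fun N : ℕ => (N : ℝ)⁻¹) atTop (𝓝 0) := tendsto_inv_atTop_nhds_zero_nat
  have hlim : Tendsto (fun N : ℕ => c₂ • h + (N : ℝ)⁻¹ • u' +
      ((N : ℝ)⁻¹ * (N : ℝ)⁻¹) • (γ • l')) atTop (𝓝 (c₂ • h)) := by
    have h1 := ((tendsto_const_nhds (x := c₂ • h)).add (h00.smul_const u')).add
      ((h00.mul h00).smul_const (γ • l'))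
    simpa using h1
  set K : ℝ := |C| * (|T.B h f| * T.B m l' ^ 2) with hK
  have hlim2 : Tendsto (fun N : ℕ => K * (c * (γ * ((N : ℝ)⁻¹ * (N : ℝ)⁻¹)))) atTop (𝓝 0) := by
    have h1 := (((h00.mul h00).const_mul γ).const_mul c).const_mul K
    simpa using h1
  obtain ⟨N, ⟨hN, hN2⟩, hN1⟩ := (((hlim.eventually (hO₂.mem_nhds hc₂O)).and
    (hlim2.eventually (gt_mem_nhds hβ0))).and (eventually_gt_atTop 0)).exists
  have hNr : (0 : ℝ) < N := by exact_mod_cast hN1
  rw [← key N hN1] at hN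
  set ψ := ((tvE hF h ((2 : ℝ) • a) hhh h2a) ^ k) ^ N * ψ₁ with hψd
  have hψm : ψ ∈ T.mon := T.mon.mul_mem (T.mon.pow_mem hψ N) hψ₁
  set c' : ℝ := γ * ((N : ℝ)⁻¹ * (N : ℝ)⁻¹) with hc'
  have hcc : 0 < c * c' := by
    have e1 : c * c' = κ * (c * c₂) * (κ⁻¹ ^ 2 * (N : ℝ)⁻¹ ^ 2) := by
      rw [hc', hγ]
      field_simp
    rw [e1]
    positivity
  obtain ⟨hgi, hg0, hgg⟩ := mon_int hT hl h0 hq hψm
  have hmem := hsub (Set.mk_mem_prod hcO hN)
  have hD : β < c * c' * T.B f (ψ l) := by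
    have h1 : β < T.B (c • f) (c' • ψ l) := hmem.2
    rw [map_smul, map_smul, LinearMap.smul_apply, smul_eq_mul, smul_eq_mul] at h1
    linarith
  have hDpos : 0 < T.B f (ψ l) := by
    by_contra h1
    push Not at h1
    have := mul_nonpos_of_nonneg_of_nonpos hcc.le h1
    linarith
  have hDK : K < T.B f (ψ l) := by
    have h1 : K * (c * c') < β := hN2
    have h2 : K * (c * c') < T.B f (ψ l) * (c * c') := by linarith
    exact lt_of_mul_lt_mul_right h2 hcc.le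
  have hgt : ψ l = tv T.B h (((k * N : ℕ) : ℝ) • (2 : ℝ) • a) l' := happ N
  have hmg : T.B m (ψ l) = T.B m l' := by
    rw [hgt, tv_apply]
    simp only [map_sub, map_add, map_smul, smul_eq_mul, hF.symm m h, hhm, hma]
    ring
  have hhg : T.B h (ψ l) = T.B h l' := by
    rw [hgt, tv_apply]
    simp only [map_sub, map_add, map_smul, smul_eq_mul, hhh, hha]
    ring
  refine ⟨φ, hφ, ψ, hψm, c, c', hc, ?_, hmem.1, hDpos, fun d hd hdN hdd => ?_⟩
  · intro h1
    rw [h1, mul_zero] at hcc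
    exact lt_irrefl _ hcc
  · exact small_square hF hhi hmi hli hff hgg (by rw [hF.symm]; exact hfh)
      (by rw [hF.symm]; exact hfm) hmg hml hhg C hDK hd hdN hdd

end Pool.Agent.H96.SYZ
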